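import Pool.Agent.Y728.MN.Det2

/-!
# Job MN7 of project MN (helper728): the weight of the primes at which two points of the line are
congruent (helper246)
-/

set_option autoImplicit false

namespace Pool.Agent.Y246.MN

open NumberField IsDedekindDomain Height Finset Pool.Agent.H691R3 Pool.Agent.TH876.Loc
open Pool.Agent.H951R3.V (ell ell_pos)
open Pool.Agent.Y728.MN
open Pool.Agent.TH876.KR (form m2)

variable {K : Type} [Field K] [NumberField K]

theorem iSup_two (f : Fin 2 → ℝ) : ⨆ i, f i = max (f 0) (f 1) := by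
  refine le_antisymm (ciSup_le fun i => ?_) (max_le ?_ ?_)
  · fin_cases i
    · exact le_max_left _ _
    · exact le_max_right _ _
  · exact le_ciSup (f := f) (Set.finite_range _).bddAbove 0
  · exact le_ciSup (f := f) (Set.finite_range _).bddAbove 1

omit [NumberField K] in
theorem pr_ne {a : Fin 2 → K} (ha : a ≠ 0) : ((a 0, a 1) : K × K) ≠ 0 := by
  intro h
  apply ha
  funext i
  fin_cases i
  · exact (Prod.mk.inj h).1
  · exact (Prod.mk.inj h).2

theorem fin_part {a : Fin 2 → K} (hp : ((a 0, a 1) : K × K) ≠ 0) :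
    ∏ᶠ v : FinitePlace K, ⨆ i : Fin 2, v (a i) =
      ∏ v ∈ (max_support_finite hp).toFinset, max (fv v (a 0)) (fv v (a 1)) := by
  have h2 : ∀ v : HeightOneSpectrum (𝓞 K), (⨆ i : Fin 2,
      ((FinitePlace.equivHeightOneSpectrum (K := K)).symm v) (a i)) =
        max (fv v (a 0)) (fv v (a 1)) := by
    intro v
    rw [iSup_two]
    rfl
  rw [← finprod_comp_equiv (FinitePlace.equivHeightOneSpectrum (K := K)).symm]
  simp_rw [h2]
  refine finprod_eq_prod_of_mulSupport_subset _ ?_
  intro v hv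
  rw [Set.Finite.coe_toFinset]
  exact hv

theorem fin_sum {a : Fin 2 → K} (hp : ((a 0, a 1) : K × K) ≠ 0) :
    ∑ᶠ v : HeightOneSpectrum (𝓞 K), Real.log (max (fv v (a 0)) (fv v (a 1))) =
      ∑ v ∈ (max_support_finite hp).toFinset, Real.log (max (fv v (a 0)) (fv v (a 1))) := by
  refine finsum_eq_sum_of_support_subset _ ?_
  intro v hv
  rw [Set.Finite.coe_toFinset]
  simp only [Function.mem_support, Set.mem_ofPred_eq] at hv ⊢
  intro h
  rw [h, Real.log_one] at hv
  exact hv rfl

theorem hr_def (a : Fin 2 → K) : hr (a 0, a 1) =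
    ∑ w : InfinitePlace K, (w.mult : ℝ) * Real.log (max (w (a 0)) (w (a 1))) +
    ∑ᶠ v : HeightOneSpectrum (𝓞 K), Real.log (max (fv v (a 0)) (fv v (a 1))) := rfl

/-- the relative logarithmic height is the height of Mathlib -/
theorem hr_eq {a : Fin 2 → K} (ha : a ≠ 0) : hr (a 0, a 1) = logHeight a := by
  have hp := pr_ne ha
  have hpos : ∀ w : InfinitePlace K, 0 < max (w (a 0)) (w (a 1)) := fun w => max_pos w.1 hp
  have hpos2 : ∀ v : HeightOneSpectrum (𝓞 K), 0 < max (fv v (a 0)) (fv v (a 1)) :=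
    fun v => m2_pos v ha
  have e1 : logHeight a = Real.log ((∏ w : InfinitePlace K, max (w (a 0)) (w (a 1)) ^ w.mult) *
      ∏ v ∈ (max_support_finite hp).toFinset, max (fv v (a 0)) (fv v (a 1))) := by
    rw [Height.logHeight_eq_log_mulHeight, NumberField.mulHeight_eq ha, fin_part hp]
    congr 2
    refine Finset.prod_congr rfl fun w _ => ?_
    rw [iSup_two]
  have e2 : Real.log (∏ w : InfinitePlace K, max (w (a 0)) (w (a 1)) ^ w.mult) =
      ∑ w : InfinitePlace K, (w.mult : ℝ) * Real.log (max (w (a 0)) (w (a 1))) := by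
    rw [Real.log_prod]
    · refine Finset.sum_congr rfl fun w _ => ?_
      rw [Real.log_pow]
    · intro w _
      exact (pow_pos (hpos w) _).ne'
  have e3 : Real.log (∏ v ∈ (max_support_finite hp).toFinset, max (fv v (a 0)) (fv v (a 1))) =
      ∑ v ∈ (max_support_finite hp).toFinset, Real.log (max (fv v (a 0)) (fv v (a 1))) := by
    rw [Real.log_prod]
    intro v _
    exact (hpos2 v).ne'
  have e4 : (∏ w : InfinitePlace K, max (w (a 0)) (w (a 1)) ^ w.mult) ≠ 0 :=
    (Finset.prod_pos fun w _ => pow_pos (hpos w) _).ne'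
  have e5 : (∏ v ∈ (max_support_finite hp).toFinset, max (fv v (a 0)) (fv v (a 1))) ≠ 0 :=
    (Finset.prod_pos fun v _ => hpos2 v).ne'
  rw [e1, Real.log_mul e4 e5, e2, e3, hr_def, fin_sum hp]

/-- The weight of the primes at which two points of the line are congruent. -/
theorem nr_wt {a b : Fin 2 → K} (h : form a b ≠ 0) :
    wt (nr_fin h).toFinset ≤ logHeight a + logHeight b + totalWeight K * Real.log 2 := by
  have ha : a ≠ 0 := by
    rintro rfl
    apply h
    show (0 : K) * b 1 - 0 * b 0 = 0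
    ring
  have hb : b ≠ 0 := by
    rintro rfl
    apply h
    show a 0 * (0 : K) - a 1 * 0 = 0
    ring
  have hp : ((a 0, a 1) : K × K) ≠ 0 := by
    intro h
    apply ha
    funext i
    fin_cases i
    · exact (Prod.mk.inj h).1
    · exact (Prod.mk.inj h).2
  have hr' : ((b 0, b 1) : K × K) ≠ 0 := by
    intro h
    apply hb
    funext i
    fin_cases i
    · exact (Prod.mk.inj h).1
    · exact (Prod.mk.inj h).2
  have hw : ((a 0, a 1) : K × K).1 * ((b 0, b 1) : K × K).2 -
      ((a 0, a 1) : K × K).2 * ((b 0, b 1) : K × K).1 ≠ 0 := h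
  have hs := sum_lam hp hr' hw
  rw [hr_eq ha, hr_eq hb] at hs
  have hfin := lamF_support_finite hp hr' hw
  set F := (nr_fin h).toFinset with hF
  classical
  have h1 : ∑ᶠ v : HeightOneSpectrum (𝓞 K), lamA (fv v) (a 0, a 1) (b 0, b 1) =
      ∑ v ∈ hfin.toFinset ∪ F, lamA (fv v) (a 0, a 1) (b 0, b 1) := by
    refine finsum_eq_sum_of_support_subset _ ?_
    intro v hv
    rw [Finset.coe_union, Set.Finite.coe_toFinset]
    exact Or.inl hv
  have h2 : ∑ v ∈ F, lamA (fv v) (a 0, a 1) (b 0, b 1) ≤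
      ∑ v ∈ hfin.toFinset ∪ F, lamA (fv v) (a 0, a 1) (b 0, b 1) :=
    Finset.sum_le_sum_of_subset_of_nonneg Finset.subset_union_right
      fun v _ _ => lamF_nonneg v hp hr' hw
  have h3 : wt F ≤ ∑ v ∈ F, lamA (fv v) (a 0, a 1) (b 0, b 1) := by
    refine Finset.sum_le_sum fun v hv => ?_
    rw [hF, Set.Finite.mem_toFinset] at hv
    have hv' : fv v (form a b) < m2 v a * m2 v b := hv
    obtain ⟨m, hm⟩ := lamF_discrete v hp hr' hw
    have hpos : 0 < lamA (fv v) (a 0, a 1) (b 0, b 1) := by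
      show 0 < Real.log (m2 v a * m2 v b / fv v (form a b))
      refine Real.log_pos ?_
      rw [one_lt_div ((fv v).pos h)]
      exact hv'
    have hm0 : m ≠ 0 := by
      rintro rfl
      rw [hm] at hpos
      simp at hpos
    have hm1 : (1 : ℝ) ≤ m := by exact_mod_cast Nat.one_le_iff_ne_zero.2 hm0
    rw [hm]
    show ell v ≤ m * ell v
    nlinarith [ell_pos v]
  have h4 : -((totalWeight K : ℝ) * Real.log 2) ≤
      ∑ w : InfinitePlace K, (w.mult : ℝ) * lamA w.1 (a 0, a 1) (b 0, b 1) := by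
    have h5 : (totalWeight K : ℝ) = ∑ w : InfinitePlace K, (w.mult : ℝ) := by
      rw [NumberField.totalWeight_eq_sum_mult]
      push_cast
      rfl
    rw [h5, Finset.sum_mul, ← Finset.sum_neg_distrib]
    refine Finset.sum_le_sum fun w _ => ?_
    have h6 := lamA_ge_neg_log_two w.1 hp hr' hw
    have h7 : (0 : ℝ) ≤ (w.mult : ℝ) := Nat.cast_nonneg _
    have h8 := mul_le_mul_of_nonneg_left h6 h7
    linarith
  linarith

end Pool.Agent.Y246.MN
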